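import Pool.Agent.AT5.Stmts1
import Pool.Agent.Helper41_AT3.NIL

/-!
# Squad AT5, row LB5: the bound for the number of modular characters
-/

set_option autoImplicit false

open scoped BigOperators

noncomputable section

namespace Pool.Agent.PP.T5.H72

open Pool.Agent.Helper51_AWC Pool.Agent.Helper79_WRA Pool.Agent.PP Pool.Agent.PP.KF
open Pool.Agent.PP.K9 Pool.Agent.PP.K9.H97 Pool.Agent.PP.H75 Pool.Agent.PP.T3 Pool.Agent.PP.T2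

attribute [local instance] Ideal.Quotient.field

theorem card_units {ℓ a : ℕ} (hℓ : ℓ.Prime) (ha : 0 < a) :
    ((Finset.range (ℓ ^ a)).filter (fun j => ¬ ℓ ∣ j)).card = ℓ ^ (a - 1) * (ℓ - 1) := by
  rw [← Nat.totient_prime_pow hℓ ha, Nat.totient_eq_card_coprime]
  congr 1
  ext j
  simp only [Finset.mem_filter, Finset.mem_range]
  refine and_congr_right fun _ => ?_
  rw [Nat.coprime_pow_left_iff ha, Nat.Prime.coprime_iff_not_dvd hℓ]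

/-- LB5 -/
theorem lb5 (pr : Pr5Stmt) (lbx : LbxStmt) (gl : Gl5Stmt) (bs : Bs5Stmt) (lnb : LnbStmt)
    (fx : Fx5Stmt) : Lb5Stmt := by
  intro ℓ hℓ M _ hM G _ _ e V u hblk htp hu hcen a p ha hep hord hV
  have hp : ℓ.Prime := hℓ.out
  obtain ⟨N, hN⟩ := pr ℓ G
  obtain ⟨⟨b, hb⟩, -⟩ := lbx ℓ M hM G e V u hblk htp hu hcen
  have hfin : (Rf M N e).Finite := (T3.H41.irrE_fin M e).subset fun _ h => h.1
  have hfx := fx ℓ M hM G N hN e hblk.1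
  refine hfx.trans ?_
  set R := (Rf M N e).ncard with hR
  set A := (Finset.range (ℓ ^ a)).filter (fun j => ¬ ℓ ∣ j) with hA
  have hAc : A.card = ℓ ^ (a - 1) * (ℓ - 1) := card_units hp ha
  have hφ : 0 < ℓ ^ (a - 1) * (ℓ - 1) :=
    Nat.mul_pos (pow_pos hp.pos _) (Nat.sub_pos_of_lt hp.one_lt)
  have h1 : (R : ℝ) * ((ℓ ^ (a - 1) * (ℓ - 1) : ℕ) : ℝ) ≤
      Nat.card V * ∑ j ∈ A, ∑ᶠ χ ∈ Rf M N e, nm M ℓ (Cu u) (u ^ j) b χ := by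
    have h2 : ∑ χ ∈ hfin.toFinset, (((ℓ ^ (a - 1) * (ℓ - 1) : ℕ) : ℝ)) ≤
        ∑ χ ∈ hfin.toFinset, (Nat.card V * ∑ j ∈ A, nm M ℓ (Cu u) (u ^ j) b χ) :=
      Finset.sum_le_sum fun χ hχ =>
        gl ℓ M hM G e V u b hb a ha hord χ ((Set.Finite.mem_toFinset _).1 hχ).1
    rw [Finset.sum_const, nsmul_eq_mul, ← Set.ncard_eq_toFinset_card _ hfin, ← Finset.mul_sum,
      Finset.sum_comm] at h2
    refine h2.trans (le_of_eq ?_)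
    congr 1
    refine Finset.sum_congr rfl fun j _ => ?_
    rw [finsum_mem_eq_finite_toFinset_sum _ hfin]
  have h3 : ∀ j ∈ A, (ℓ : ℝ) ^ (a - ep ℓ) * ∑ᶠ χ ∈ Rf M N e, nm M ℓ (Cu u) (u ^ j) b χ ≤
      ln (fun t : Cu u => b t) := fun j hj =>
    bs ℓ M hM G N hN e V u b hb a hep hord j (Finset.mem_filter.1 hj).2
  have h4 : (ℓ : ℝ) ^ (a - ep ℓ) * ∑ j ∈ A, ∑ᶠ χ ∈ Rf M N e, nm M ℓ (Cu u) (u ^ j) b χ ≤
      ((ℓ ^ (a - 1) * (ℓ - 1) : ℕ) : ℝ) * ln (fun t : Cu u => b t) := by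
    rw [Finset.mul_sum]
    refine (Finset.sum_le_sum h3).trans (le_of_eq ?_)
    rw [Finset.sum_const, nsmul_eq_mul, hAc]
  have h5 := lnb ℓ M hM G e V u b hb a p hord hV
  have hφR : (0 : ℝ) < ((ℓ ^ (a - 1) * (ℓ - 1) : ℕ) : ℝ) := by exact_mod_cast hφ
  have hV0 : (0 : ℝ) ≤ Nat.card V := Nat.cast_nonneg _
  have hl0 : (0 : ℝ) ≤ (ℓ : ℝ) ^ (a - ep ℓ) := pow_nonneg (Nat.cast_nonneg _) _
  have h6 : (ℓ : ℝ) ^ (a - ep ℓ) * R ≤ Nat.card V * ln (fun t : Cu u => b t) := by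
    have h7 := mul_le_mul_of_nonneg_left h1 hl0
    have h8 := mul_le_mul_of_nonneg_left h4 hV0
    have h9 : ((ℓ : ℝ) ^ (a - ep ℓ) * R) * ((ℓ ^ (a - 1) * (ℓ - 1) : ℕ) : ℝ) ≤
        (Nat.card V * ln (fun t : Cu u => b t)) * ((ℓ ^ (a - 1) * (ℓ - 1) : ℕ) : ℝ) := by
      calc _ = (ℓ : ℝ) ^ (a - ep ℓ) * (R * ((ℓ ^ (a - 1) * (ℓ - 1) : ℕ) : ℝ)) := by ring
        _ ≤ _ := h7
        _ = Nat.card V * ((ℓ : ℝ) ^ (a - ep ℓ) *
            ∑ j ∈ A, ∑ᶠ χ ∈ Rf M N e, nm M ℓ (Cu u) (u ^ j) b χ) := by ring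
        _ ≤ _ := h8
        _ = _ := by ring
    exact le_of_mul_le_mul_right h9 hφR
  have h7 : ℓ ^ (a - ep ℓ) * R ≤ Nat.card V * ln (fun t : Cu u => b t) := by
    exact_mod_cast h6
  have h8 : ℓ ^ (a - ep ℓ) * R ≤ ℓ ^ (a - ep ℓ) * ℓ ^ (3 * p + ep ℓ) := by
    refine h7.trans ((Nat.mul_le_mul hV h5).trans (le_of_eq ?_))
    rw [← pow_add, ← pow_add]
    congr 1
    omega
  exact Nat.le_of_mul_le_mul_left h8 (pow_pos hp.pos _)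

end Pool.Agent.PP.T5.H72
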